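import Pool.Agent.Run7.h377.SB.Box
import Pool.Agent.N825.FC.App
import Pool.Agent.H498R2.KlWeil
import Pool.Agent.Y951.WP.Main

set_option autoImplicit false

/-!
# Applications of the criterion in small boxes
-/

namespace Pool.Agent.Run7.h377.SB

open Finset Filter
open Pool.Agent.W147.PS (ff ff_compare ev_pow)
open Pool.Agent.N825.FC (rep rep_gt rep_cast Mid bilin)

lemma ringChar_ne_two (P : ℕ) (hP : 3 ≤ P) : ringChar (ZMod P) ≠ 2 := by
  rw [ZMod.ringChar_zmod_n]; omega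

/-- sums over the units of the values of a nontrivial character -/
lemma units_sum (P : ℕ) [Fact P.Prime] (h : ZMod P) (hh : h ≠ 0) :
    ∑ x : (ZMod P)ˣ, (ZMod.stdAddChar (h * (x : ZMod P)) : ℂ) = -1 := by
  have h1 : ∑ x : ZMod P, (ZMod.stdAddChar (x * h) : ℂ) = 0 := by
    rw [AddChar.sum_mulShift (R := ZMod P) (R' := ℂ) (ψ := ZMod.stdAddChar) h
      (ZMod.isPrimitive_stdAddChar P), if_neg hh]
    simp
  have h2 : ∑ x : ZMod P, (ZMod.stdAddChar (x * h) : ℂ) =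
      (ZMod.stdAddChar ((0 : ZMod P) * h) : ℂ) +
        ∑ x : (ZMod P)ˣ, (ZMod.stdAddChar (h * (x : ZMod P)) : ℂ) := by
    rw [← add_sum_erase univ _ (mem_univ (0 : ZMod P))]
    congr 1
    symm
    refine sum_bij (fun (x : (ZMod P)ˣ) _ => (x : ZMod P)) ?_ ?_ ?_ ?_
    · intro x _
      rw [mem_erase]
      exact ⟨x.ne_zero, mem_univ _⟩
    · intro x _ y _ hxy
      exact Units.ext hxy
    · intro x hx
      exact ⟨Units.mk0 x (mem_erase.1 hx).1, mem_univ _, rfl⟩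
    · intro x _
      rw [mul_comm]
  rw [h1, zero_mul, AddChar.map_zero_eq_one] at h2
  linear_combination -h2

/-- the points of the modular hyperbola -/
def hyp {P : ℕ} (a : ZMod P) (x : (ZMod P)ˣ) : Fin 2 → ZMod P :=
  ![(x : ZMod P), a * ((x⁻¹ : (ZMod P)ˣ) : ZMod P)]

lemma hyp_sum (P : ℕ) [Fact P.Prime] (hP : 3 ≤ P) (a : ZMod P) (ha : a ≠ 0)
    (h : Fin 2 → ZMod P) (hh : h ≠ 0) :
    ‖∑ x : (ZMod P)ˣ, (ZMod.stdAddChar (∑ j, h j * hyp a x j) : ℂ)‖ ≤ 2 * Real.sqrt P := by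
  have hP1 : (1 : ℝ) ≤ P := by exact_mod_cast (by omega : 1 ≤ P)
  have hsq : 1 ≤ Real.sqrt P := Real.one_le_sqrt.2 hP1
  have e : ∀ x : (ZMod P)ˣ, ∑ j, h j * hyp a x j =
      h 0 * (x : ZMod P) + (h 1 * a) * ((x⁻¹ : (ZMod P)ˣ) : ZMod P) := by
    intro x
    rw [Fin.sum_univ_two]
    simp only [hyp, Matrix.cons_val_zero, Matrix.cons_val_one]
    ring
  simp_rw [e]
  by_cases h0 : h 0 = 0
  · have h1 : h 1 ≠ 0 := by
      intro h1
      apply hh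
      funext j
      fin_cases j
      · exact h0
      · exact h1
    have h2 : ∑ x : (ZMod P)ˣ, (ZMod.stdAddChar (h 0 * (x : ZMod P) +
        (h 1 * a) * ((x⁻¹ : (ZMod P)ˣ) : ZMod P)) : ℂ) =
        ∑ x : (ZMod P)ˣ, (ZMod.stdAddChar ((h 1 * a) * (x : ZMod P)) : ℂ) := by
      rw [h0]
      simp_rw [zero_mul, zero_add]
      exact Fintype.sum_equiv (Equiv.inv (ZMod P)ˣ) _ _ fun x => rfl
    rw [h2, units_sum P _ (mul_ne_zero h1 ha)]
    simp only [norm_neg, norm_one]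
    linarith
  · by_cases h1 : h 1 = 0
    · rw [h1]
      simp_rw [zero_mul, add_zero]
      rw [units_sum P _ h0]
      simp only [norm_neg, norm_one]
      linarith
    · have h2 := Pool.Agent.H498R2.Kl.kloosterman_units_le (F := ZMod P)
        (ringChar_ne_two P hP) (ZMod.isPrimitive_stdAddChar P) h0 (mul_ne_zero h1 ha)
      rwa [ZMod.card] at h2

/-- **Record gaps on the modular hyperbola.** -/
theorem hyperbola (ε : ℝ) (hε : 0 < ε) (hε1 : ε ≤ 1) : ∃ κ : ℝ, 0 < κ ∧ ∃ P₀ : ℝ,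
    ∀ (P : ℕ) [Fact P.Prime], P₀ ≤ P → ∀ a : ZMod P, a ≠ 0 → ∀ (M : Fin 2 → ℤ) (L : Fin 2 → ℕ),
      (∀ j, L j ≤ P) → (P : ℝ) ^ (3 / 2 + ε) ≤ L 0 * L 1 →
      ∃ g : Finset (ℤ × ℤ), (L 0 * L 1 : ℝ) * (P : ℝ) ^ (-1 - ε) ≤ g.card ∧
        ∀ w ∈ g, (M 0 < w.1 ∧ w.1 ≤ M 0 + L 0) ∧ (M 1 < w.2 ∧ w.2 ≤ M 1 + L 1) ∧
          (w.1 : ZMod P) * (w.2 : ZMod P) = a ∧ Mid κ ε P w.1 ∧ Mid κ ε P w.2 := by
  classical
  obtain ⟨κ, hκ, P₁, hmain⟩ := manyBox 2 (by norm_num) (ε / 2) (by linarith) (by linarith)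
  obtain ⟨P₂, hP₂⟩ := eventually_atTop.1 ((eventually_ge_atTop (3 : ℝ)).and
    (ev_pow 0 (ε / 2) 4 (by linarith)))
  refine ⟨κ, hκ, max P₁ P₂, ?_⟩
  intro P _ hPP a ha M L hLP hL
  obtain ⟨hP3, hbig⟩ := hP₂ P ((le_max_right _ _).trans hPP)
  have hP3' : 3 ≤ P := by exact_mod_cast hP3
  have hP0 : (0 : ℝ) < P := by linarith
  have hP1 : (1 : ℝ) ≤ P := by linarith
  rw [Real.rpow_zero, mul_one] at hbig
  have hcard : ((univ : Finset (ZMod P)ˣ).card : ℝ) = P - 1 := by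
    rw [card_univ, ZMod.card_units_eq_totient, Nat.totient_prime Fact.out,
      Nat.cast_sub (by omega), Nat.cast_one]
  have hLR : ∀ j, (L j : ℝ) ≤ P := fun j => by exact_mod_cast hLP j
  have hpow : (P : ℝ) ^ (3 / 2 + ε) = (P : ℝ) ^ (1 / 2 + ε) * P := by
    nth_rewrite 3 [← Real.rpow_one (P : ℝ)]
    rw [← Real.rpow_add hP0]; congr 1; ring
  have hLc : ∀ j, (P : ℝ) ^ (1 / 2 + ε) ≤ L j := by
    intro j
    rw [hpow] at hL
    fin_cases j
    · have h2 : (L 0 : ℝ) * L 1 ≤ L 0 * P := mul_le_mul_of_nonneg_left (hLR 1) (Nat.cast_nonneg _)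
      exact le_of_mul_le_mul_right (hL.trans h2) hP0
    · have h2 : (L 0 : ℝ) * L 1 ≤ L 1 * P := by
        rw [mul_comm]
        exact mul_le_mul_of_nonneg_left (hLR 0) (Nat.cast_nonneg _)
      exact le_of_mul_le_mul_right (hL.trans h2) hP0
  have hprod : ∏ j, (L j : ℝ) / P = L 0 * L 1 / P ^ 2 := by
    rw [Fin.prod_univ_two]; field_simp
  have hhalf : (P : ℝ) / 2 ≤ P - 1 := by linarith
  have hLL0 : (0 : ℝ) ≤ L 0 * L 1 := by positivity
  obtain ⟨g, _, hg1, hg2⟩ := hmain P ((le_max_left _ _).trans hPP) (ZMod P)ˣ univ (hyp a)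
    (2 * Real.sqrt P) (by positivity) (fun h hh => hyp_sum P hP3' a ha h hh) M L
    (fun j => ⟨(Real.rpow_le_rpow_of_exponent_le hP1 (by linarith)).trans (hLc j), hLP j⟩)
    ⟨1, mem_univ _⟩ (by
      rw [hcard, hprod]
      have h1 : (P : ℝ) ^ (3 / 2 + ε) / P ^ 2 ≤ L 0 * L 1 / P ^ 2 :=
        div_le_div_of_nonneg_right hL (by positivity)
      have h2 : (P : ℝ) ^ (3 / 2 + ε) / P ^ 2 * P = (P : ℝ) ^ (1 / 2 + ε) := by
        rw [hpow]; field_simp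
      have h3 : (P : ℝ) / 2 * ((P : ℝ) ^ (3 / 2 + ε) / P ^ 2) ≤
          (P - 1) * (L 0 * L 1 / P ^ 2) :=
        mul_le_mul hhalf h1 (by positivity) (by linarith)
      refine le_trans ?_ h3
      have h4 : (P : ℝ) / 2 * ((P : ℝ) ^ (3 / 2 + ε) / P ^ 2) = (P : ℝ) ^ (1 / 2 + ε) / 2 := by
        rw [← h2]; ring
      rw [h4, Real.sqrt_eq_rpow]
      have h5 : (P : ℝ) ^ (1 / 2 + ε) = (P : ℝ) ^ (1 / 2 : ℝ) * (P : ℝ) ^ (ε / 2) *
          (P : ℝ) ^ (ε / 2) := by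
        rw [← Real.rpow_add hP0, ← Real.rpow_add hP0]; congr 1; ring
      rw [h5]
      have h6 : 0 ≤ (P : ℝ) ^ (1 / 2 : ℝ) * (P : ℝ) ^ (ε / 2) := by positivity
      nlinarith)
  refine ⟨g.image fun x => (rep (M 0) (hyp a x 0), rep (M 1) (hyp a x 1)), ?_, ?_⟩
  · rw [card_image_of_injective]
    · refine le_trans ?_ hg1
      rw [hcard, hprod]
      have h1 : (P : ℝ) ^ (-1 - ε) = (P : ℝ)⁻¹ * (P : ℝ) ^ (-(ε / 2)) * (P : ℝ) ^ (-(ε / 2)) := by
        rw [← Real.rpow_neg_one, ← Real.rpow_add hP0, ← Real.rpow_add hP0]; congr 1; ring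
      rw [h1]
      have h2 : (P : ℝ) ^ (-(ε / 2)) ≤ 1 / 4 := by
        rw [Real.rpow_neg hP0.le, ← one_div]
        exact one_div_le_one_div_of_le (by norm_num) hbig
      have h3 : (L 0 * L 1 : ℝ) * ((P : ℝ)⁻¹ * (P : ℝ) ^ (-(ε / 2)) * (P : ℝ) ^ (-(ε / 2))) ≤
          (L 0 * L 1 : ℝ) * ((P : ℝ)⁻¹ * (P : ℝ) ^ (-(ε / 2)) * (1 / 4)) := by
        apply mul_le_mul_of_nonneg_left _ hLL0
        exact mul_le_mul_of_nonneg_left h2 (by positivity)
      refine h3.trans ?_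
      have h4 : (L 0 * L 1 : ℝ) * ((P : ℝ)⁻¹ * (P : ℝ) ^ (-(ε / 2)) * (1 / 4)) =
          (P / 4) * (L 0 * L 1 / P ^ 2) * (P : ℝ) ^ (-(ε / 2)) := by
        field_simp
      rw [h4]
      apply mul_le_mul_of_nonneg_right _ (by positivity)
      apply mul_le_mul_of_nonneg_right _ (by positivity)
      linarith
    · intro x y hxy
      have h1 := (Prod.mk.inj hxy).1
      have h2 : ((rep (M 0) (hyp a x 0) : ℤ) : ZMod P) = ((rep (M 0) (hyp a y 0) : ℤ) : ZMod P) := by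
        rw [h1]
      rw [rep_cast, rep_cast] at h2
      exact Units.ext (show (x : ZMod P) = y from h2)
  · intro w hw
    obtain ⟨x, hx, rfl⟩ := mem_image.1 hw
    have h0 := hg2 x hx 0
    have h1 := hg2 x hx 1
    have hmid : ∀ n : ℤ, Mid κ (ε / 2) P n → Mid κ ε P n := by
      intro n hn t ht
      obtain ⟨p, hp, hpε, hpt⟩ := hn t ht
      exact ⟨p, hp, hpε.trans (Real.rpow_le_rpow_of_exponent_le hP1 (by linarith)), hpt⟩
    refine ⟨⟨rep_gt _ _, h0.1⟩, ⟨rep_gt _ _, h1.1⟩, ?_, hmid _ h0.2, hmid _ h1.2⟩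
    simp only [rep_cast]
    simp only [hyp, Matrix.cons_val_zero, Matrix.cons_val_one]
    rw [mul_left_comm, ← Units.val_mul, mul_inv_cancel, Units.val_one, mul_one]

/-- centres prime to `p` in short intervals -/
theorem short (ε : ℝ) (hε : 0 < ε) (hε1 : ε ≤ 1) : ∃ κ : ℝ, 0 < κ ∧ ∃ P₀ : ℝ,
    ∀ (P : ℕ) [Fact P.Prime], P₀ ≤ P → ∀ (M : ℤ) (L : ℕ), L ≤ P → (P : ℝ) ^ ε ≤ L →
      ∃ T : Finset ℤ, L * (P : ℝ) ^ (-ε) ≤ T.card ∧
        ∀ n ∈ T, M < n ∧ n ≤ M + L ∧ (n : ZMod P) ≠ 0 ∧ Mid κ ε P n := by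
  classical
  obtain ⟨κ, hκ, P₁, hmain⟩ := manyBox 1 le_rfl (ε / 2) (by linarith) (by linarith)
  obtain ⟨P₂, hP₂⟩ := eventually_atTop.1 ((eventually_ge_atTop (3 : ℝ)).and
    (ev_pow 0 (ε / 2) 2 (by linarith)))
  refine ⟨κ, hκ, max P₁ P₂, ?_⟩
  intro P _ hPP M L hLP hL
  obtain ⟨hP3, hbig⟩ := hP₂ P ((le_max_right _ _).trans hPP)
  have hP3' : 3 ≤ P := by exact_mod_cast hP3
  have hP0 : (0 : ℝ) < P := by linarith
  have hP1 : (1 : ℝ) ≤ P := by linarith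
  rw [Real.rpow_zero, mul_one] at hbig
  have hcard : ((univ : Finset (ZMod P)ˣ).card : ℝ) = P - 1 := by
    rw [card_univ, ZMod.card_units_eq_totient, Nat.totient_prime Fact.out,
      Nat.cast_sub (by omega), Nat.cast_one]
  have hsplit : (P : ℝ) ^ ε = (P : ℝ) ^ (ε / 2) * (P : ℝ) ^ (ε / 2) := by
    rw [← Real.rpow_add hP0]; congr 1; ring
  have hpos : 0 < (P : ℝ) ^ (ε / 2) := by positivity
  have h12 : (P : ℝ) / 2 * (L / P) ≤ (P - 1) * (L / P) :=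
    mul_le_mul_of_nonneg_right (by linarith) (by positivity)
  have h13 : (P : ℝ) / 2 * (L / P) = L / 2 := by field_simp
  rw [h13] at h12
  obtain ⟨g, _, hg1, hg2⟩ := hmain P ((le_max_left _ _).trans hPP) (ZMod P)ˣ univ
    (fun x _ => (x : ZMod P)) 1 zero_le_one (by
      intro h hh
      have h0 : h 0 ≠ 0 := by
        intro h0
        apply hh
        funext j
        rw [Subsingleton.elim j 0, h0]
        rfl
      have h1 := units_sum P (h 0) h0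
      simp only [Fin.sum_univ_one]
      rw [h1]
      simp) (fun _ => M) (fun _ => L)
    (fun _ => ⟨by
      refine le_trans ?_ hL
      rw [hsplit]
      nlinarith, hLP⟩)
    ⟨1, mem_univ _⟩ (by
      rw [hcard, Fin.prod_univ_one, one_mul]
      rw [hsplit] at hL
      nlinarith)
  refine ⟨g.image fun x : (ZMod P)ˣ => rep M (x : ZMod P), ?_, ?_⟩
  · rw [card_image_of_injective]
    · refine le_trans ?_ hg1
      rw [hcard, Fin.prod_univ_one]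
      have h1 : (P : ℝ) ^ (-ε) = (P : ℝ) ^ (-(ε / 2)) * (P : ℝ) ^ (-(ε / 2)) := by
        rw [← Real.rpow_add hP0]; congr 1; ring
      have h2 : (P : ℝ) ^ (-(ε / 2)) ≤ 1 / 2 := by
        rw [Real.rpow_neg hP0.le, ← one_div]
        exact one_div_le_one_div_of_le (by norm_num) hbig
      have h3 : 0 < (P : ℝ) ^ (-(ε / 2)) := by positivity
      rw [h1, ← mul_assoc]
      apply mul_le_mul_of_nonneg_right _ h3.le
      have h4 : (L : ℝ) * (P : ℝ) ^ (-(ε / 2)) ≤ L * (1 / 2) :=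
        mul_le_mul_of_nonneg_left h2 (Nat.cast_nonneg _)
      linarith
    · intro x y hxy
      have h2 : ((rep M (x : ZMod P) : ℤ) : ZMod P) = ((rep M (y : ZMod P) : ℤ) : ZMod P) :=
        congrArg (fun n : ℤ => (n : ZMod P)) hxy
      rw [rep_cast, rep_cast] at h2
      exact Units.ext h2
  · intro n hn
    obtain ⟨x, hx, rfl⟩ := mem_image.1 hn
    have h1 := hg2 x hx 0
    refine ⟨rep_gt _ _, h1.1, ?_, ?_⟩
    · rw [rep_cast]; exact x.ne_zero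
    · intro t ht
      obtain ⟨p, hp, hpε, hpt⟩ := h1.2 t ht
      exact ⟨p, hp, hpε.trans (Real.rpow_le_rpow_of_exponent_le hP1 (by linarith)), hpt⟩

/-- **Every residue class is a product of `k ≥ 2` record centres in given intervals.** -/
theorem products (k : ℕ) (ε : ℝ) (hε : 0 < ε) (hε1 : ε ≤ 1) : ∃ κ : ℝ, 0 < κ ∧ ∃ P₀ : ℝ,
    ∀ (P : ℕ) [Fact P.Prime], P₀ ≤ P → ∀ a : ZMod P, a ≠ 0 → ∀ (M : Fin (k + 2) → ℤ)
      (L : Fin (k + 2) → ℕ), (∀ j, (P : ℝ) ^ ε ≤ L j ∧ L j ≤ P) →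
      (P : ℝ) ^ (3 / 2 + ε) ≤ L 0 * L 1 →
      ∃ g : Finset (Fin (k + 2) → ℤ), (∏ j, (L j : ℝ)) * (P : ℝ) ^ (-1 - ε) ≤ g.card ∧
        ∀ n ∈ g, (∀ j, M j < n j ∧ n j ≤ M j + L j ∧ Mid κ ε P (n j)) ∧
        ((∏ j, n j : ℤ) : ZMod P) = a := by
  classical
  set δ : ℝ := ε / (k + 1) with hδ
  have hk0 : (0 : ℝ) ≤ k := Nat.cast_nonneg _
  have hδ0 : 0 < δ := by positivity
  have hδε : δ ≤ ε := by
    rw [hδ, div_le_iff₀ (by positivity)]
    nlinarith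
  have hδk : δ * (k + 1) = ε := by rw [hδ]; field_simp
  obtain ⟨κ₁, hκ₁, P₁, h₁⟩ := hyperbola δ hδ0 (hδε.trans hε1)
  obtain ⟨κ₂, hκ₂, P₂, h₂⟩ := short δ hδ0 (hδε.trans hε1)
  have hff : ∀ᶠ Z : ℝ in atTop, 0 ≤ ff Z := by
    filter_upwards [ff_compare 1 (by norm_num) (by norm_num), eventually_ge_atTop (1 : ℝ)]
      with Z hZ hZ1
    exact (Real.log_nonneg hZ1).trans hZ.1
  obtain ⟨P₃, hP₃⟩ := eventually_atTop.1 (hff.and (eventually_ge_atTop (1 : ℝ)))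
  refine ⟨min κ₁ κ₂, lt_min hκ₁ hκ₂, max (max P₁ P₂) P₃, ?_⟩
  intro P _ hPP a ha M L hL hLL
  have hP1 : P₁ ≤ P := ((le_max_left _ _).trans (le_max_left _ _)).trans hPP
  have hP2 : P₂ ≤ P := ((le_max_right _ _).trans (le_max_left _ _)).trans hPP
  obtain ⟨hffP, hPone⟩ := hP₃ P ((le_max_right _ _).trans hPP)
  have hP0 : (0 : ℝ) < P := by linarith
  have hmid : ∀ κ' : ℝ, min κ₁ κ₂ ≤ κ' → ∀ n : ℤ, Mid κ' δ P n → Mid (min κ₁ κ₂) ε P n := by
    intro κ' hκ' n hn t ht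
    obtain ⟨p, hp, hpε, hpt⟩ := hn t (ht.trans (mul_le_mul_of_nonneg_right hκ' hffP))
    exact ⟨p, hp, hpε.trans (Real.rpow_le_rpow_of_exponent_le hPone hδε), hpt⟩
  have hch : ∀ j : Fin k, ∃ T : Finset ℤ, L j.succ.succ * (P : ℝ) ^ (-δ) ≤ T.card ∧
      ∀ n ∈ T, M j.succ.succ < n ∧ n ≤ M j.succ.succ + L j.succ.succ ∧
      (n : ZMod P) ≠ 0 ∧ Mid κ₂ δ P n := fun j =>
    h₂ P hP2 (M j.succ.succ) (L j.succ.succ) (hL _).2
      ((Real.rpow_le_rpow_of_exponent_le hPone hδε).trans (hL _).1)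
  choose T hT1 hT2 using hch
  have hprod0 : ∀ m ∈ Fintype.piFinset T, ((∏ j, m j : ℤ) : ZMod P) ≠ 0 := by
    intro m hm
    push_cast
    exact prod_ne_zero_iff.2 fun j _ => (hT2 j _ (Fintype.mem_piFinset.1 hm j)).2.2.1
  have hLL' : (P : ℝ) ^ (3 / 2 + δ) ≤ L 0 * L 1 :=
    (Real.rpow_le_rpow_of_exponent_le hPone (by linarith)).trans hLL
  have hg : ∀ m ∈ Fintype.piFinset T, ∃ g : Finset (ℤ × ℤ),
      (L 0 * L 1 : ℝ) * (P : ℝ) ^ (-1 - δ) ≤ g.card ∧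
        ∀ w ∈ g, (M 0 < w.1 ∧ w.1 ≤ M 0 + L 0) ∧ (M 1 < w.2 ∧ w.2 ≤ M 1 + L 1) ∧
          (w.1 : ZMod P) * (w.2 : ZMod P) = a * ((∏ j, m j : ℤ) : ZMod P)⁻¹ ∧
          Mid κ₁ δ P w.1 ∧ Mid κ₁ δ P w.2 := fun m hm =>
    h₁ P hP1 (a * ((∏ j, m j : ℤ) : ZMod P)⁻¹)
      (mul_ne_zero ha (inv_ne_zero (hprod0 m hm))) (fun j => M (Fin.castLE (by omega) j))
      (fun j => L (Fin.castLE (by omega) j)) (fun j => (hL _).2) hLL'
  choose! g hg1 hg2 using hg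
  refine ⟨(Fintype.piFinset T).biUnion fun m => (g m).image fun w =>
    (Fin.cons w.1 (Fin.cons w.2 m) : Fin (k + 2) → ℤ), ?_, ?_⟩
  · rw [card_biUnion]
    · have hinj : ∀ m : Fin k → ℤ, Function.Injective (fun w : ℤ × ℤ =>
          (Fin.cons w.1 (Fin.cons w.2 m) : Fin (k + 2) → ℤ)) := by
        intro m w w' hw
        have e0 : w.1 = w'.1 := by simpa using congrFun hw 0
        have e1 : w.2 = w'.2 := by
          have := congrFun hw (Fin.succ 0)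
          simpa [Fin.cons_succ] using this
        exact Prod.ext e0 e1
      simp_rw [card_image_of_injective _ (hinj _)]
      push_cast
      have h3 : ∑ m ∈ Fintype.piFinset T, (L 0 * L 1 : ℝ) * (P : ℝ) ^ (-1 - δ) ≤
          ∑ m ∈ Fintype.piFinset T, ((g m).card : ℝ) := sum_le_sum fun m hm => hg1 m hm
      refine le_trans ?_ h3
      rw [sum_const, nsmul_eq_mul, Fintype.card_piFinset]
      push_cast
      have h4 : ∏ j : Fin k, ((L j.succ.succ : ℝ) * (P : ℝ) ^ (-δ)) ≤ ∏ j, ((T j).card : ℝ) :=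
        prod_le_prod (fun j _ => by positivity) fun j _ => hT1 j
      have h5 : (0 : ℝ) ≤ (L 0 * L 1 : ℝ) * (P : ℝ) ^ (-1 - δ) := by positivity
      refine le_trans ?_ (mul_le_mul_of_nonneg_right h4 h5)
      apply le_of_eq
      rw [prod_mul_distrib, prod_const, card_univ, Fintype.card_fin, Fin.prod_univ_succ,
        Fin.prod_univ_succ]
      have h6 : (P : ℝ) ^ (-1 - ε) = ((P : ℝ) ^ (-δ)) ^ k * (P : ℝ) ^ (-1 - δ) := by
        rw [← Real.rpow_natCast, ← Real.rpow_mul hP0.le, ← Real.rpow_add hP0]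
        congr 1
        linarith
      rw [h6]
      simp only [Fin.succ_zero_eq_one]
      ring
    · intro m _ m' _ hne
      rw [Function.onFun, Finset.disjoint_left]
      intro n hn hn'
      obtain ⟨w, _, rfl⟩ := mem_image.1 hn
      obtain ⟨w', _, hw'⟩ := mem_image.1 hn'
      apply hne
      funext j
      have := congrFun hw' j.succ.succ
      simpa [Fin.cons_succ] using this.symm
  · intro n hn
    obtain ⟨m, hm, hn2⟩ := mem_biUnion.1 hn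
    obtain ⟨w, hw, rfl⟩ := mem_image.1 hn2
    obtain ⟨⟨a1, a2⟩, ⟨a3, a4⟩, a5, a6, a7⟩ := hg2 m hm w hw
    refine ⟨?_, ?_⟩
    · intro j
      refine Fin.cases ?_ (fun j => ?_) j
      · exact ⟨a1, a2, hmid _ (min_le_left _ _) _ a6⟩
      · refine Fin.cases ?_ (fun j => ?_) j
        · exact ⟨a3, a4, hmid _ (min_le_left _ _) _ a7⟩
        · have h8 := hT2 j _ (Fintype.mem_piFinset.1 hm j)
          exact ⟨h8.1, h8.2.1, hmid _ (min_le_right _ _) _ h8.2.2.2⟩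
    · rw [Fin.prod_univ_succ, Fin.prod_univ_succ]
      simp only [Fin.cons_zero, Fin.cons_succ]
      have h9 := hprod0 m hm
      push_cast
      push_cast at a5 h9
      rw [← mul_assoc, a5, mul_assoc, inv_mul_cancel₀ h9, mul_one]

end Pool.Agent.Run7.h377.SB
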