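import Pool.Agent.N825.FC.Core

set_option autoImplicit false

/-!
# Record prime gaps and families of residues: small boxes

The criterion of `Pool.Agent.N825.FC.Core` for boxes with arbitrary sides.
-/

namespace Pool.Agent.Run7.h377.SB

open Finset Filter
open Pool.Agent.Y961.JR (critJ)
open Pool.Agent.W147.PS (ff ff_compare ev_pow)
open Pool.Agent.N825.FC (rep rep_gt card_ind count l1 card_T Mid)

lemma prod_diff' {κ : Type} (S : Finset κ) (a b β : κ → ℝ) (l : ℝ) (ha0 : ∀ j, 0 ≤ a j)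
    (ha : ∀ j, a j ≤ β j) (hb0 : ∀ j, 0 ≤ b j) (hb : ∀ j, b j ≤ β j) (hl : 0 ≤ l)
    (hab : ∀ j, |a j - b j| ≤ l * β j) :
    |∏ j ∈ S, a j - ∏ j ∈ S, b j| ≤ S.card * l * ∏ j ∈ S, β j := by
  classical
  have hβ : ∀ j, 0 ≤ β j := fun j => (ha0 j).trans (ha j)
  induction S using Finset.induction_on with
  | empty => simp
  | insert j S hj ih =>
    rw [prod_insert hj, prod_insert hj, prod_insert hj, card_insert_of_notMem hj]
    have h1 : a j * ∏ x ∈ S, a x - b j * ∏ x ∈ S, b x =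
        a j * (∏ x ∈ S, a x - ∏ x ∈ S, b x) + (a j - b j) * ∏ x ∈ S, b x := by ring
    rw [h1]
    refine (abs_add_le _ _).trans ?_
    rw [abs_mul, abs_mul, abs_of_nonneg (ha0 j), abs_of_nonneg (prod_nonneg fun x _ => hb0 x)]
    have hP : 0 ≤ ∏ x ∈ S, β x := prod_nonneg fun x _ => hβ x
    have h2 : a j * |∏ x ∈ S, a x - ∏ x ∈ S, b x| ≤ β j * (S.card * l * ∏ x ∈ S, β x) :=
      mul_le_mul (ha j) ih (abs_nonneg _) (hβ j)
    have h3 : |a j - b j| * ∏ x ∈ S, b x ≤ (l * β j) * ∏ x ∈ S, β x :=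
      mul_le_mul (hab j) (prod_le_prod (fun x _ => hb0 x) fun x _ => hb x)
        (prod_nonneg fun x _ => hb0 x) (mul_nonneg hl (hβ j))
    push_cast
    linarith

/-- Equidistribution of the representatives in a box. -/
theorem eqd' (P : ℕ) [NeZero P] {ι : Type} (s : Finset ι) (r : ℕ) (v : ι → Fin r → ZMod P)
    (W : ℝ) (hW : ∀ h : Fin r → ZMod P, h ≠ 0 → ‖∑ i ∈ s, ZMod.stdAddChar (∑ j, h j * v i j)‖ ≤ W)
    (hW0 : 0 ≤ W) (M : Fin r → ℤ) (L : Fin r → ℕ) (hL : ∀ j, L j ≤ P) (l : ℝ) (hl : 0 ≤ l)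
    (hLl : ∀ j, 1 ≤ l * L j) (q : ℕ) (hq : 1 ≤ q)
    (hPq : Nat.Coprime P q) (ρ : Fin r → ℤ) :
    |((s.filter fun i => ∀ j, rep (M j) (v i j) ≤ M j + L j ∧
        (q : ℤ) ∣ rep (M j) (v i j) - ρ j).card : ℝ) - s.card * (∏ j, (L j : ℝ) / P) / q ^ r| ≤
      W * (2 + Real.log P) ^ r + s.card * (∏ j, (L j : ℝ) / P) * (r * l) := by
  classical
  have hP0 : (0 : ℝ) < P := by exact_mod_cast Nat.pos_of_ne_zero (NeZero.ne P)
  have hq0 : (1 : ℝ) ≤ q := by exact_mod_cast hq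
  set T : Fin r → Finset ℤ := fun j =>
    (Ioc (M j) (M j + L j)).filter fun n : ℤ => n ≡ ρ j [ZMOD q] with hT
  have hsub : ∀ j, T j ⊆ Ioc (M j) (M j + P) := by
    intro j n hn
    have := mem_Ioc.1 (mem_filter.1 hn).1
    have h2 : (L j : ℤ) ≤ P := by exact_mod_cast hL j
    exact mem_Ioc.2 ⟨this.1, by omega⟩
  have h1 := count P s r v W hW hW0 T (2 + Real.log P)
    (fun j => l1 P q hq hPq (M j) (ρ j) (L j) (hL j))
  have h2 : (∑ i ∈ s, ∏ j, (((T j).filter fun n : ℤ => (n : ZMod P) = v i j).card : ℝ)) =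
      ((s.filter fun i => ∀ j, rep (M j) (v i j) ≤ M j + L j ∧
        (q : ℤ) ∣ rep (M j) (v i j) - ρ j).card : ℝ) := by
    rw [card_filter]
    push_cast
    refine sum_congr rfl fun i _ => ?_
    have h3 : ∀ j, (((T j).filter fun n : ℤ => (n : ZMod P) = v i j).card : ℝ) =
        if (rep (M j) (v i j) ≤ M j + L j ∧ (q : ℤ) ∣ rep (M j) (v i j) - ρ j) then 1 else 0 := by
      intro j
      rw [card_ind (M j) (T j) (hsub j) (v i j)]
      have h4 : rep (M j) (v i j) ∈ T j ↔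
          (rep (M j) (v i j) ≤ M j + L j ∧ (q : ℤ) ∣ rep (M j) (v i j) - ρ j) := by
        rw [hT, mem_filter, mem_Ioc]
        have h5 := rep_gt (M j) (v i j)
        constructor
        · rintro ⟨⟨_, a2⟩, a3⟩
          exact ⟨a2, (Int.modEq_iff_dvd.1 a3.symm)⟩
        · rintro ⟨a2, a3⟩
          exact ⟨⟨h5, a2⟩, (Int.modEq_iff_dvd.2 a3).symm⟩
      by_cases h6 : rep (M j) (v i j) ∈ T j
      · rw [if_pos h6, if_pos (h4.1 h6)]; norm_num
      · rw [if_neg h6, if_neg (fun h => h6 (h4.2 h))]; norm_num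
    rw [prod_congr rfl fun j _ => h3 j, prod_ite_zero]
    simp
  rw [h2] at h1
  have h3 : |∏ j, ((T j).card : ℝ) / P - ∏ j, (L j : ℝ) / P / q| ≤
      r * l * ∏ j, (L j : ℝ) / P := by
    have h4 := prod_diff' (univ : Finset (Fin r)) (fun j => ((T j).card : ℝ) / P)
      (fun j => (L j : ℝ) / P / q) (fun j => (L j : ℝ) / P) l (fun j => by positivity)
      (fun j => by
        apply div_le_div_of_nonneg_right _ hP0.le
        have h5 : (T j).card ≤ L j := by
          refine (card_filter_le _ _).trans ?_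
          simp
        exact_mod_cast h5)
      (fun j => by positivity)
      (fun j => div_le_self (by positivity) hq0)
      hl
      (fun j => by
        have h5 := card_T q hq (M j) (ρ j) (L j)
        have h6 : ((T j).card : ℝ) / P - (L j : ℝ) / P / q = (((T j).card : ℝ) - L j / q) / P := by
          field_simp
        rw [h6, abs_div, abs_of_pos hP0, ← mul_div_assoc]
        exact div_le_div_of_nonneg_right (h5.trans (hLl j)) hP0.le)
    rw [card_univ, Fintype.card_fin] at h4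
    exact h4
  have hprod : ∏ j, (L j : ℝ) / P / q = (∏ j, (L j : ℝ) / P) / (q : ℝ) ^ r := by
    rw [prod_div_distrib, prod_const, card_univ, Fintype.card_fin]
  have h4 : (s.card : ℝ) * (∏ j, (L j : ℝ) / P) / q ^ r = s.card * ∏ j, ((T j).card : ℝ) / P -
      s.card * (∏ j, ((T j).card : ℝ) / P - ∏ j, (L j : ℝ) / P / q) := by
    rw [hprod]; ring
  rw [h4]
  have h5 : |(s.card : ℝ) * (∏ j, ((T j).card : ℝ) / P - ∏ j, (L j : ℝ) / P / q)| ≤
      s.card * (∏ j, (L j : ℝ) / P) * (r * l) := by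
    rw [abs_mul, abs_of_nonneg (Nat.cast_nonneg _)]
    calc _ ≤ (s.card : ℝ) * (r * l * ∏ j, (L j : ℝ) / P) :=
          mul_le_mul_of_nonneg_left h3 (Nat.cast_nonneg _)
      _ = _ := by ring
  have h6 : ∀ x y z : ℝ, |x - (y - z)| ≤ |x - y| + |z| := by
    intro x y z
    have : x - (y - z) = (x - y) + z := by ring
    rw [this]
    exact abs_add_le _ _
  exact (h6 _ _ _).trans (add_le_add h1 h5)

/-- The criterion in boxes of arbitrary sides. -/
theorem manyBox (r : ℕ) (hr : 1 ≤ r) (c : ℝ) (hc : 0 < c) (hc1 : c ≤ 1) :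
    ∃ κ : ℝ, 0 < κ ∧ ∃ P₀ : ℝ, ∀ (P : ℕ) [Fact P.Prime], P₀ ≤ P →
    ∀ (ι : Type) (s : Finset ι) (v : ι → Fin r → ZMod P) (W : ℝ), 0 ≤ W →
    (∀ h : Fin r → ZMod P, h ≠ 0 →
      ‖∑ i ∈ s, (ZMod.stdAddChar (∑ j, h j * v i j) : ℂ)‖ ≤ W) →
    ∀ (M : Fin r → ℤ) (L : Fin r → ℕ), (∀ j, (P : ℝ) ^ c ≤ L j ∧ L j ≤ P) →
    s.Nonempty → W * (P : ℝ) ^ c ≤ s.card * ∏ j, (L j : ℝ) / P →
    ∃ g ⊆ s, (s.card * ∏ j, (L j : ℝ) / P) * (P : ℝ) ^ (-c) ≤ g.card ∧
      ∀ i ∈ g, ∀ j, rep (M j) (v i j) ≤ M j + L j ∧ Mid κ c P (rep (M j) (v i j)) := by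
  classical
  obtain ⟨κ₀, hκ₀, X₀, hcrit⟩ := critJ r hr
  have hr0 : (0 : ℝ) < r := by exact_mod_cast hr
  have hr1 : (1 : ℝ) ≤ r := by exact_mod_cast hr
  set θ : ℝ := c / (8 * r) with hθ
  have hθ0 : 0 < θ := by positivity
  have hθ1 : θ ≤ 1 / 8 := by
    rw [hθ, div_le_div_iff₀ (by positivity) (by norm_num)]
    nlinarith
  have hθr : θ * (2 * r) = c / 4 := by rw [hθ]; field_simp; ring
  -- the conditions on `P`
  have hlogr : ∀ᶠ Z : ℝ in atTop, (2 + Real.log Z) ^ r ≤ Z ^ (c / 4) := by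
    have h := (isLittleO_log_rpow_atTop (show (0 : ℝ) < c / (8 * r) by positivity)).def
      (show (0 : ℝ) < 1 by norm_num)
    filter_upwards [h, ev_pow 0 (c / (8 * r)) 2 (by positivity),
      ev_pow (c / (8 * r)) (c / (4 * r)) 2 (by
        rw [div_lt_div_iff₀ (by positivity) (by positivity)]
        nlinarith), eventually_ge_atTop (1 : ℝ)] with Z h1 h2 h3 hZ1
    rw [Real.norm_eq_abs, abs_of_nonneg (Real.log_nonneg hZ1), Real.norm_eq_abs,
      abs_of_nonneg (Real.rpow_nonneg (by linarith) _), one_mul] at h1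
    rw [Real.rpow_zero, mul_one] at h2
    have h4 : 2 + Real.log Z ≤ Z ^ (c / (4 * r)) := by linarith
    calc (2 + Real.log Z) ^ r ≤ (Z ^ (c / (4 * r))) ^ r :=
          pow_le_pow_left₀ (by have := Real.log_nonneg hZ1; linarith) h4 r
      _ = Z ^ (c / 4) := by
          rw [← Real.rpow_natCast, ← Real.rpow_mul (by linarith)]
          congr 1
          field_simp
  obtain ⟨P₀, hP₀⟩ := eventually_atTop.1 ((ff_compare θ hθ0 (by linarith)).and
    (((tendsto_rpow_atTop hθ0).eventually_ge_atTop X₀).and ((eventually_ge_atTop (2 : ℝ)).and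
    (hlogr.and ((ev_pow (-(3 * c / 4)) (-(c / 2)) 64 (by linarith)).and
    ((ev_pow (-c) (-(c / 2)) (64 * r) (by linarith)).and
    ((ev_pow (-(c / 2)) (-(c / 4)) 4 (by linarith)).and
    (ev_pow (-(c / 2)) 0 1 (by linarith)))))))))
  refine ⟨κ₀ * (θ / 32), by positivity, P₀, ?_⟩
  intro P _ hPP ι s v W hW0 hv M L hL hs hbig
  have hPprime : P.Prime := Fact.out
  obtain ⟨hff, hX, hP2, hlog, e1, e2, e3, e4⟩ := hP₀ P hPP
  have hP0 : (0 : ℝ) < P := by linarith
  have hP1 : (1 : ℝ) ≤ P := by linarith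
  have hs0 : (0 : ℝ) < s.card := by exact_mod_cast hs.card_pos
  set X : ℝ := (P : ℝ) ^ θ with hXdef
  have hL0 : ∀ j, (0 : ℝ) < L j := fun j => lt_of_lt_of_le (Real.rpow_pos_of_pos hP0 _) (hL j).1
  set B : ℝ := ∏ j, (L j : ℝ) / P with hB
  have hB0 : 0 < B := prod_pos fun j _ => div_pos (hL0 j) hP0
  set D : ℝ := s.card * B with hDdef
  have hD0 : 0 < D := mul_pos hs0 hB0
  set l : ℝ := (P : ℝ) ^ (-c) with hl
  have hl0 : 0 ≤ l := by positivity
  have hLl : ∀ j, 1 ≤ l * L j := by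
    intro j
    have h1 : (P : ℝ) ^ (-c) * (P : ℝ) ^ c ≤ l * L j :=
      mul_le_mul_of_nonneg_left (hL j).1 hl0
    rwa [← Real.rpow_add hP0, neg_add_cancel, Real.rpow_zero] at h1
  have hWD : W ≤ D * (P : ℝ) ^ (-c) := by
    have h1 : W * (P : ℝ) ^ c * (P : ℝ) ^ (-c) ≤ D * (P : ℝ) ^ (-c) :=
      mul_le_mul_of_nonneg_right hbig (by positivity)
    rwa [mul_assoc, ← Real.rpow_add hP0, add_neg_cancel, Real.rpow_zero, mul_one] at h1
  set E : ℝ := W * (2 + Real.log P) ^ r + D * (r * l) with hE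
  have hlogP : 0 ≤ Real.log P := Real.log_nonneg hP1
  have hE1 : E ≤ D * ((P : ℝ) ^ (-(c / 2)) / 32) := by
    have a1 : (P : ℝ) ^ (-c) * (2 + Real.log P) ^ r ≤ (P : ℝ) ^ (-(3 * c / 4)) := by
      calc (P : ℝ) ^ (-c) * (2 + Real.log P) ^ r ≤ (P : ℝ) ^ (-c) * (P : ℝ) ^ (c / 4) :=
            mul_le_mul_of_nonneg_left hlog (by positivity)
        _ = (P : ℝ) ^ (-(3 * c / 4)) := by
            rw [← Real.rpow_add hP0]; congr 1; ring
    have a2 : W * (2 + Real.log P) ^ r ≤ D * (P : ℝ) ^ (-(3 * c / 4)) := by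
      calc W * (2 + Real.log P) ^ r ≤ D * (P : ℝ) ^ (-c) * (2 + Real.log P) ^ r :=
            mul_le_mul_of_nonneg_right hWD (by positivity)
        _ = D * ((P : ℝ) ^ (-c) * (2 + Real.log P) ^ r) := by ring
        _ ≤ _ := mul_le_mul_of_nonneg_left a1 hD0.le
    have a3 : D * (r * l) ≤ D * ((P : ℝ) ^ (-(c / 2)) / 64) := by
      apply mul_le_mul_of_nonneg_left _ hD0.le
      rw [hl]
      linarith
    have a4 : D * (P : ℝ) ^ (-(3 * c / 4)) ≤ D * ((P : ℝ) ^ (-(c / 2)) / 64) := by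
      apply mul_le_mul_of_nonneg_left _ hD0.le
      linarith
    rw [hE]
    linarith
  have hE0 : 0 ≤ E := by positivity
  -- the representatives in the box
  set s' := s.filter fun i => ∀ j, rep (M j) (v i j) ≤ M j + L j with hs'
  have hc1' : |(s'.card : ℝ) - D| ≤ E := by
    have h1 := eqd' P s r v W hv hW0 M L (fun j => (hL j).2) l hl0 hLl 1 le_rfl
      (Nat.coprime_one_right P) 0
    have h2 : (s.filter fun i => ∀ j, rep (M j) (v i j) ≤ M j + L j ∧
        ((1 : ℕ) : ℤ) ∣ rep (M j) (v i j) - (0 : Fin r → ℤ) j) = s' := by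
      rw [hs']
      refine filter_congr fun i _ => forall_congr' fun j => ?_
      simp
    rw [h2, Nat.cast_one, one_pow, div_one] at h1
    exact h1
  have hP4 : (P : ℝ) ^ (-(c / 2)) ≤ 1 := by simpa using e4
  have hs'1 : D / 2 ≤ s'.card := by
    have h1 := (abs_le.1 hc1').1
    have h3 : D * ((P : ℝ) ^ (-(c / 2)) / 32) ≤ D * (1 / 32) := by
      apply mul_le_mul_of_nonneg_left _ hD0.le
      exact div_le_div_of_nonneg_right hP4 (by norm_num)
    have h4 : D * (1 / 32) = D / 32 := by ring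
    linarith
  -- the good members
  set G := s'.filter fun i => ∀ j, Mid (κ₀ * (θ / 32)) c P (rep (M j) (v i j)) with hG
  refine ⟨G, (filter_subset _ _).trans (filter_subset _ _), ?_, fun i hi j =>
    ⟨(mem_filter.1 (mem_filter.1 hi).1).2 j, (mem_filter.1 hi).2 j⟩⟩
  by_contra hlt
  rw [not_le] at hlt
  set t := s' \ G with ht
  have htc : (t.card : ℝ) = s'.card - G.card := by
    rw [ht, card_sdiff_of_subset (filter_subset _ _), Nat.cast_sub (card_le_card (filter_subset _ _))]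
  have hG1 : (G.card : ℝ) ≤ D * ((P : ℝ) ^ (-(c / 2)) / 64) := by
    refine hlt.le.trans ?_
    apply mul_le_mul_of_nonneg_left _ hD0.le
    have : (P : ℝ) ^ (-c) ≤ r * (P : ℝ) ^ (-c) := by
      have : 0 ≤ (P : ℝ) ^ (-c) := by positivity
      nlinarith
    have : 64 * (r * (P : ℝ) ^ (-c)) = 64 * r * (P : ℝ) ^ (-c) := by ring
    linarith
  have ht1 : D / 4 ≤ t.card := by
    rw [htc]
    have h3 : D * ((P : ℝ) ^ (-(c / 2)) / 64) ≤ D * (1 / 64) := by
      apply mul_le_mul_of_nonneg_left _ hD0.le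
      exact div_le_div_of_nonneg_right hP4 (by norm_num)
    have h4 : D * (1 / 64) = D / 64 := by ring
    linarith
  have ht0 : t.Nonempty := by
    rw [← card_pos]
    have : (0 : ℝ) < t.card := lt_of_lt_of_le (by positivity) ht1
    exact_mod_cast this
  have hXr : X ^ (-(2 * (r : ℝ))) = (P : ℝ) ^ (-(c / 4)) := by
    rw [hXdef, ← Real.rpow_mul hP0.le]
    congr 1
    linarith
  obtain ⟨i, hi, hgood⟩ := (hcrit X hX).2 ι t (fun i j => rep (M j) (v i j)) ht0 (by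
    intro q hq hqX ρ
    have hq1 : (1 : ℝ) ≤ q := by exact_mod_cast hq
    have hqP : q < P := by
      have h1 : X ^ (2 / 5 : ℝ) ≤ (P : ℝ) ^ (1 / 2 : ℝ) := by
        rw [hXdef, ← Real.rpow_mul hP0.le]
        exact Real.rpow_le_rpow_of_exponent_le hP1 (by linarith)
      have h2 : (P : ℝ) ^ (1 / 2 : ℝ) < (P : ℝ) ^ (1 : ℝ) :=
        Real.rpow_lt_rpow_of_exponent_lt (by linarith) (by norm_num)
      rw [Real.rpow_one] at h2
      have : (q : ℝ) < P := by linarith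
      exact_mod_cast this
    have hcop : Nat.Coprime P q :=
      (Nat.Prime.coprime_iff_not_dvd hPprime).2 fun h => absurd (Nat.le_of_dvd hq h) (by omega)
    have h1 := eqd' P s r v W hv hW0 M L (fun j => (hL j).2) l hl0 hLl q hq hcop ρ
    set C := s.filter fun i => ∀ j, rep (M j) (v i j) ≤ M j + L j ∧
        (q : ℤ) ∣ rep (M j) (v i j) - ρ j with hC
    have hqr : (1 : ℝ) ≤ (q : ℝ) ^ r := one_le_pow₀ hq1
    have h2 : |(C.card : ℝ) - s'.card / (q : ℝ) ^ r| ≤ 2 * E := by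
      have e : (C.card : ℝ) - s'.card / (q : ℝ) ^ r =
          ((C.card : ℝ) - D / (q : ℝ) ^ r) - (s'.card - D) / (q : ℝ) ^ r := by
        ring
      rw [e]
      have e' : |(s'.card - D) / (q : ℝ) ^ r| ≤ E := by
        rw [abs_div, abs_of_pos (by positivity : (0 : ℝ) < (q : ℝ) ^ r)]
        exact (div_le_self (abs_nonneg _) hqr).trans hc1'
      refine (abs_sub _ _).trans ?_
      linarith
    set F := t.filter fun i => ∀ j, (q : ℤ) ∣ rep (M j) (v i j) - ρ j with hF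
    have hDC : F ⊆ C := by
      intro x hx
      have h3 := mem_filter.1 hx
      have h4 := mem_filter.1 (mem_sdiff.1 h3.1).1
      exact mem_filter.2 ⟨h4.1, fun j => ⟨h4.2 j, h3.2 j⟩⟩
    have hCD : C \ F ⊆ G := by
      intro x hx
      have h3 := mem_sdiff.1 hx
      have h4 := mem_filter.1 h3.1
      by_contra hxG
      apply h3.2
      exact mem_filter.2 ⟨mem_sdiff.2 ⟨mem_filter.2 ⟨h4.1, fun j => (h4.2 j).1⟩, hxG⟩,
        fun j => (h4.2 j).2⟩
    have h5 : (C.card : ℝ) - F.card ≤ G.card := by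
      have h6 := card_le_card hCD
      rw [card_sdiff_of_subset hDC] at h6
      have h7 : ((C.card - F.card : ℕ) : ℝ) ≤ G.card := by exact_mod_cast h6
      rwa [Nat.cast_sub (card_le_card hDC)] at h7
    have h6 : (F.card : ℝ) ≤ C.card := by exact_mod_cast card_le_card hDC
    have h7 : |(F.card : ℝ) - t.card / (q : ℝ) ^ r| ≤ 2 * E + G.card := by
      rw [htc]
      have e : (F.card : ℝ) - (s'.card - G.card) / (q : ℝ) ^ r =
          ((C.card : ℝ) - s'.card / (q : ℝ) ^ r) + (G.card / (q : ℝ) ^ r - (C.card - F.card)) := by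
        ring
      rw [e]
      have h8 : |(G.card : ℝ) / (q : ℝ) ^ r - (C.card - F.card)| ≤ G.card := by
        have h9 : (G.card : ℝ) / (q : ℝ) ^ r ≤ G.card := div_le_self (Nat.cast_nonneg _) hqr
        have h10 : 0 ≤ (G.card : ℝ) / (q : ℝ) ^ r := by positivity
        rw [abs_le]
        constructor <;> linarith
      exact (abs_add_le _ _).trans (add_le_add h2 h8)
    refine h7.trans ?_
    rw [hXr]
    have h8 : D / 4 * (P : ℝ) ^ (-(c / 4)) ≤
        t.card * (P : ℝ) ^ (-(c / 4)) := mul_le_mul_of_nonneg_right ht1 (by positivity)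
    have h9 : D * (P : ℝ) ^ (-(c / 2)) ≤ D * ((P : ℝ) ^ (-(c / 4)) / 4) := by
      apply mul_le_mul_of_nonneg_left _ hD0.le
      linarith
    have h11 : 0 ≤ D * ((P : ℝ) ^ (-(c / 2))) := by positivity
    nlinarith)
  apply (mem_sdiff.1 hi).2
  refine mem_filter.2 ⟨(mem_sdiff.1 hi).1, fun j z hz => ?_⟩
  have hcmp : κ₀ * (θ / 32) * ff P ≤ κ₀ * ff X + 1 := by
    have h5 := (hff.2 X le_rfl (by
      calc X ≤ (P : ℝ) ^ (2 : ℝ) := Real.rpow_le_rpow_of_exponent_le hP1 (by linarith)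
        _ = (P : ℝ) ^ 2 := by norm_num)).1
    calc κ₀ * (θ / 32) * ff P = κ₀ * (θ / 32 * ff P) := by ring
      _ ≤ κ₀ * ff X := mul_le_mul_of_nonneg_left h5 hκ₀.le
      _ ≤ _ := by linarith
  obtain ⟨p, hp, hpX, hpt⟩ := hgood j z (hz.trans hcmp)
  refine ⟨p, hp, hpX.trans ?_, hpt⟩
  rw [hXdef, ← Real.rpow_mul hP0.le]
  apply Real.rpow_le_rpow_of_exponent_le hP1
  have : θ ≤ c := by
    rw [hθ, div_le_iff₀ (by positivity)]
    nlinarith
  linarith

end Pool.Agent.Run7.h377.SB
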