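import Pool.Agent.Run7.h377.SB.Box
import Pool.Agent.N825.FC.App

set_option autoImplicit false

/-!
# Applications of the criterion in small boxes: arbitrary sets
-/

namespace Pool.Agent.Run7.h377.SB

open Finset Filter
open Pool.Agent.W147.PS (ff ff_compare ev_pow)
open Pool.Agent.N825.FC (rep rep_gt rep_cast Mid bilin)

/-- the sums over the family `a φ_j(b) + G_j(a) + K_j(b)` -/
lemma bil_sum (P : ℕ) [Fact P.Prime] {κ : Type} (r d : ℕ) (A : Finset (ZMod P)) (B : Finset κ)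
    (φ : κ → Fin r → ZMod P) (G : ZMod P → Fin r → ZMod P) (K : κ → Fin r → ZMod P)
    (hd : ∀ h : Fin r → ZMod P, h ≠ 0 → ∀ y, (B.filter fun b => ∑ j, h j * φ b j = y).card ≤ d)
    (h : Fin r → ZMod P) (hh : h ≠ 0) :
    ‖∑ w ∈ A ×ˢ B, (ZMod.stdAddChar (∑ j, h j * (w.1 * φ w.2 j + G w.1 j + K w.2 j)) : ℂ)‖ ≤
      Real.sqrt (P * (d * (A.card * B.card))) := by
  apply Real.le_sqrt_of_sq_le
  have h1 := bilin A B (fun b => ∑ j, h j * φ b j) (fun a => ZMod.stdAddChar (∑ j, h j * G a j))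
    (fun b => ZMod.stdAddChar (∑ j, h j * K b j)) (fun a => (AddChar.norm_apply _ _).le)
    (fun b => (AddChar.norm_apply _ _).le) d (hd h hh)
  have h2 : ∑ w ∈ A ×ˢ B, (ZMod.stdAddChar (∑ j, h j * (w.1 * φ w.2 j + G w.1 j + K w.2 j)) : ℂ) =
      ∑ a ∈ A, ∑ b ∈ B, ZMod.stdAddChar (∑ j, h j * G a j) *
        (ZMod.stdAddChar (a * ∑ j, h j * φ b j) * ZMod.stdAddChar (∑ j, h j * K b j)) := by
    rw [sum_product]
    refine sum_congr rfl fun a _ => sum_congr rfl fun b _ => ?_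
    rw [← AddChar.map_add_eq_mul, ← AddChar.map_add_eq_mul]
    congr 1
    rw [mul_sum, ← sum_add_distrib, ← sum_add_distrib]
    exact sum_congr rfl fun j _ => by ring
  rw [h2]
  refine h1.trans (le_of_eq ?_)
  ring

/-- **Arbitrary sets and small boxes.** -/
theorem sets (r : ℕ) (hr : 1 ≤ r) (d : ℕ) (ε : ℝ) (hε : 0 < ε) (hε1 : ε ≤ 1) :
    ∃ κ : ℝ, 0 < κ ∧ ∃ P₀ : ℝ,
    ∀ (P : ℕ) [Fact P.Prime], P₀ ≤ P → ∀ (β : Type) (A : Finset (ZMod P)) (B : Finset β)
      (φ : β → Fin r → ZMod P) (G : ZMod P → Fin r → ZMod P) (K : β → Fin r → ZMod P),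
      (∀ h : Fin r → ZMod P, h ≠ 0 → ∀ y, (B.filter fun b => ∑ j, h j * φ b j = y).card ≤ d) →
      ∀ (M : Fin r → ℤ) (L : Fin r → ℕ), (∀ j, (P : ℝ) ^ ε ≤ L j ∧ L j ≤ P) →
      (P : ℝ) ^ (1 + 2 * r + ε) ≤ (A.card * B.card) * (∏ j, (L j : ℝ)) ^ 2 →
      ∃ g ⊆ A ×ˢ B, (A.card * B.card) * (∏ j, (L j : ℝ) / P) * (P : ℝ) ^ (-ε) ≤ g.card ∧
        ∀ w ∈ g, ∀ j, rep (M j) (w.1 * φ w.2 j + G w.1 j + K w.2 j) ≤ M j + L j ∧
          Mid κ ε P (rep (M j) (w.1 * φ w.2 j + G w.1 j + K w.2 j)) := by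
  classical
  obtain ⟨κ, hκ, P₁, hmain⟩ := manyBox r hr (ε / 4) (by linarith) (by linarith)
  obtain ⟨P₂, hP₂⟩ := eventually_atTop.1 ((eventually_ge_atTop (3 : ℝ)).and
    (ev_pow 0 (ε / 2) d (by linarith)))
  refine ⟨κ, hκ, max P₁ P₂, ?_⟩
  intro P _ hPP β A B φ G K hd M L hL hbig
  obtain ⟨hP3, hdP⟩ := hP₂ P ((le_max_right _ _).trans hPP)
  have hP0 : (0 : ℝ) < P := by linarith
  have hP1 : (1 : ℝ) ≤ P := by linarith
  rw [Real.rpow_zero, mul_one] at hdP
  have hLp0 : 0 ≤ ∏ j, (L j : ℝ) := prod_nonneg fun j _ => Nat.cast_nonneg _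
  have hAB0 : (0 : ℝ) < A.card * B.card := by
    by_contra hcon
    have h1 : (A.card * B.card : ℝ) * (∏ j, (L j : ℝ)) ^ 2 ≤ 0 :=
      mul_nonpos_of_nonpos_of_nonneg (not_lt.1 hcon) (by positivity)
    have h2 : (0 : ℝ) < (P : ℝ) ^ (1 + 2 * r + ε) := by positivity
    linarith
  have hcard : (((A ×ˢ B).card : ℕ) : ℝ) = A.card * B.card := by rw [card_product]; push_cast; rfl
  have hprod : ∏ j, (L j : ℝ) / P = (∏ j, (L j : ℝ)) / P ^ r := by
    rw [prod_div_distrib, prod_const, card_univ, Fintype.card_fin]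
  obtain ⟨g, hgs, hg1, hg2⟩ := hmain P ((le_max_left _ _).trans hPP) (ZMod P × β) (A ×ˢ B)
    (fun w j => w.1 * φ w.2 j + G w.1 j + K w.2 j)
    (Real.sqrt (P * (d * (A.card * B.card)))) (Real.sqrt_nonneg _)
    (fun h hh => bil_sum P r d A B φ G K hd h hh) M L
    (fun j => ⟨(Real.rpow_le_rpow_of_exponent_le hP1 (by linarith)).trans (hL j).1, (hL j).2⟩)
    (by
      rw [← card_pos]
      have : (0 : ℝ) < ((A ×ˢ B).card : ℕ) := by rw [hcard]; exact hAB0
      exact_mod_cast this)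
    (by
      rw [hcard, hprod]
      have h1 : Real.sqrt (P * (d * (A.card * B.card))) * (P : ℝ) ^ (ε / 4) =
          Real.sqrt (P * (d * (A.card * B.card)) * (P : ℝ) ^ (ε / 2)) := by
        rw [Real.sqrt_mul (by positivity) ((P : ℝ) ^ (ε / 2))]
        congr 1
        rw [Real.sqrt_eq_rpow, ← Real.rpow_mul hP0.le]
        congr 1; ring
      rw [h1]
      apply Real.sqrt_le_iff.2
      refine ⟨by positivity, ?_⟩
      have h2 : (A.card * B.card * ((∏ j, (L j : ℝ)) / P ^ r)) ^ 2 =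
          (A.card * B.card : ℝ) * ((A.card * B.card) * (∏ j, (L j : ℝ)) ^ 2) / P ^ (2 * r) := by
        rw [pow_mul']
        field_simp
      rw [h2]
      have h3 : (A.card * B.card : ℝ) * (P : ℝ) ^ (1 + 2 * r + ε) / P ^ (2 * r) ≤
          (A.card * B.card : ℝ) * ((A.card * B.card) * (∏ j, (L j : ℝ)) ^ 2) / P ^ (2 * r) := by
        apply div_le_div_of_nonneg_right _ (by positivity)
        exact mul_le_mul_of_nonneg_left hbig hAB0.le
      refine le_trans ?_ h3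
      have h4 : (P : ℝ) ^ (1 + 2 * r + ε) =
          P * P ^ (2 * r) * ((P : ℝ) ^ (ε / 2) * (P : ℝ) ^ (ε / 2)) := by
        rw [← Real.rpow_natCast (P : ℝ) (2 * r), ← Real.rpow_add hP0]
        nth_rewrite 2 [← Real.rpow_one (P : ℝ)]
        rw [← Real.rpow_add hP0, ← Real.rpow_add hP0]
        congr 1
        push_cast
        ring
      rw [h4]
      have h5 : (A.card * B.card : ℝ) * (P * P ^ (2 * r) * ((P : ℝ) ^ (ε / 2) * (P : ℝ) ^ (ε / 2))) /
          P ^ (2 * r) = (P * (A.card * B.card) * (P : ℝ) ^ (ε / 2)) * (P : ℝ) ^ (ε / 2) := by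
        field_simp
      rw [h5]
      have h6 : (P * (d * (A.card * B.card)) * (P : ℝ) ^ (ε / 2) : ℝ) =
          (P * (A.card * B.card) * (P : ℝ) ^ (ε / 2)) * d := by ring
      rw [h6]
      exact mul_le_mul_of_nonneg_left hdP (by positivity))
  refine ⟨g, hgs, ?_, ?_⟩
  · refine le_trans ?_ hg1
    rw [hcard]
    apply mul_le_mul_of_nonneg_left _ (by
      apply mul_nonneg hAB0.le
      exact prod_nonneg fun j _ => by positivity)
    exact Real.rpow_le_rpow_of_exponent_le hP1 (by linarith)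
  · intro w hw j
    refine ⟨(hg2 w hw j).1, ?_⟩
    intro t ht
    obtain ⟨p, hp, hpε, hpt⟩ := (hg2 w hw j).2 t ht
    exact ⟨p, hp, hpε.trans (Real.rpow_le_rpow_of_exponent_le hP1 (by linarith)), hpt⟩

open Polynomial in
/-- a nontrivial combination of `b, b², …, b ^ r` takes every value at most `r` times -/
lemma pow_count (p : ℕ) [Fact p.Prime] (r : ℕ) (B : Finset (ZMod p)) (h : Fin r → ZMod p)
    (hh : h ≠ 0) (y : ZMod p) :
    (B.filter fun b => ∑ j, h j * b ^ ((j : ℕ) + 1) = y).card ≤ r := by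
  classical
  set Q : (ZMod p)[X] := ∑ j, C (h j) * X ^ ((j : ℕ) + 1) - C y with hQ
  have hQ0 : Q ≠ 0 := by
    obtain ⟨j, hj⟩ := Function.ne_iff.1 hh
    intro h0
    apply hj
    have h1 : Q.coeff ((j : ℕ) + 1) = h j := by
      rw [hQ, coeff_sub, finset_sum_coeff, coeff_C_succ, sub_zero]
      simp_rw [coeff_C_mul, coeff_X_pow]
      rw [Finset.sum_eq_single j]
      · simp
      · intro i _ hi
        rw [if_neg (fun hc => hi (Fin.ext (by omega))), mul_zero]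
      · intro hc; exact absurd (mem_univ _) hc
    rw [← h1, h0, coeff_zero]; rfl
  have hdeg : Q.natDegree ≤ r := by
    rw [hQ]
    refine (natDegree_sub_C).le.trans ?_
    refine natDegree_sum_le_of_forall_le _ _ fun i _ => ?_
    refine (natDegree_C_mul_X_pow_le _ _).trans ?_
    omega
  refine le_trans ?_ ((card_roots' Q).trans hdeg)
  refine (card_le_card (t := Q.roots.toFinset) ?_).trans (Multiset.toFinset_card_le _)
  intro b hb
  rw [Multiset.mem_toFinset, mem_roots hQ0, IsRoot.def, hQ, eval_sub, eval_C, eval_finsetSum]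
  have := (mem_filter.1 hb).2
  simp only [eval_mul, eval_C, eval_pow, eval_X]
  rw [this, sub_self]

end Pool.Agent.Run7.h377.SB
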